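import Pool.Agent.W97.KE.Stm

/-!
Real roots of the `7`-division polynomial of `y² = x³ - 11x² - x`, and numerical facts.
-/

set_option autoImplicit false

namespace Pool.Agent.W999.KE

open Pool.Agent.W97.MT (IsGloballyMinimal affCount ap)
open Pool.Agent.W97.V20 (E4)
open Pool.Agent.W97.KE
open WeierstrassCurve

/-! ### RE -/

theorem eval_psi7 (x : ℝ) : (Psi7.map (Int.castRingHom ℝ)).eval x =
    ∑ i ∈ Finset.range 25, ((cf7.getD i 0 : ℤ) : ℝ) * x ^ i := by
  unfold Psi7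
  rw [Polynomial.map_sum, Polynomial.eval_finsetSum]
  refine Finset.sum_congr rfl fun i _ => ?_
  simp

theorem root_of_sign {a b : ℝ} (hab : a ≤ b) (f : Polynomial ℝ)
    (h : f.eval a ≤ 0 ∧ 0 ≤ f.eval b ∨ f.eval b ≤ 0 ∧ 0 ≤ f.eval a) :
    ∃ x, a ≤ x ∧ x ≤ b ∧ f.eval x = 0 := by
  have hc : ContinuousOn (fun x => f.eval x) (Set.Icc a b) := f.continuous.continuousOn
  rcases h with h | h
  · obtain ⟨x, hx, hx'⟩ := intermediate_value_Icc hab hc ⟨h.1, h.2⟩
    exact ⟨x, hx.1, hx.2, hx'⟩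
  · obtain ⟨x, hx, hx'⟩ := intermediate_value_Icc' hab hc ⟨h.1, h.2⟩
    exact ⟨x, hx.1, hx.2, hx'⟩

theorem s_re : S_RE := by
  obtain ⟨x₀, h1, h2, h3⟩ := root_of_sign (a := 23 / 2) (b := 12) (by norm_num)
    (Psi7.map (Int.castRingHom ℝ)) (by
      left
      rw [eval_psi7, eval_psi7]
      simp only [Finset.sum_range_succ, Finset.sum_range_zero, cf7, List.getD_cons_zero,
        List.getD_cons_succ]
      norm_num)
  obtain ⟨x₁, g1, g2, g3⟩ := root_of_sign (a := -7) (b := -6) (by norm_num)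
    (Psi7.map (Int.castRingHom ℝ)) (by
      right
      rw [eval_psi7, eval_psi7]
      simp only [Finset.sum_range_succ, Finset.sum_range_zero, cf7, List.getD_cons_zero,
        List.getD_cons_succ]
      norm_num)
  refine ⟨x₀, x₁, h3, g3, ?_, ?_⟩
  · nlinarith [mul_nonneg (sub_nonneg.2 h1) (sub_nonneg.2 h1)]
  · nlinarith [mul_nonneg (sub_nonneg.2 g1) (sub_nonneg.2 g2)]

/-! ### NUM -/

theorem eq4 (p : ℕ) (P : ZMod p × ZMod p) :
    (E4.map (Int.castRingHom (ZMod p))).toAffine.Equation P.1 P.2 ↔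
      P.2 ^ 2 = P.1 ^ 3 - 11 * P.1 ^ 2 - P.1 := by
  have ha1 : (E4.map (Int.castRingHom (ZMod p))).a₁ = 0 := by simp [E4]
  have ha2 : (E4.map (Int.castRingHom (ZMod p))).a₂ = -11 := by simp [E4]
  have ha3 : (E4.map (Int.castRingHom (ZMod p))).a₃ = 0 := by simp [E4]
  have ha4 : (E4.map (Int.castRingHom (ZMod p))).a₄ = -1 := by simp [E4]
  have ha6 : (E4.map (Int.castRingHom (ZMod p))).a₆ = 0 := by simp [E4]
  rw [WeierstrassCurve.Affine.equation_iff, ha1, ha2, ha3, ha4, ha6]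
  constructor <;> intro h <;> linear_combination h

theorem aff4 (p : ℕ) [NeZero p] : affCount E4 p =
    (Finset.univ.filter (fun P : ZMod p × ZMod p =>
      P.2 ^ 2 = P.1 ^ 3 - 11 * P.1 ^ 2 - P.1)).card := by
  unfold affCount
  rw [Nat.card_congr (Equiv.subtypeEquivRight (eq4 p)), Nat.card_eq_fintype_card,
    Fintype.card_subtype]

theorem aff7 : affCount E4 7 = 5 := by
  rw [aff4]; decide +kernel

theorem delta4 : E4.Δ = 2000 := by
  simp [WeierstrassCurve.Δ, WeierstrassCurve.b₂, WeierstrassCurve.b₄, WeierstrassCurve.b₆,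
    WeierstrassCurve.b₈, E4]

theorem min4 : IsGloballyMinimal E4 := by
  refine ⟨by rw [delta4]; norm_num, ?_⟩
  intro W' C h
  have h1 := congrArg WeierstrassCurve.Δ h
  rw [WeierstrassCurve.variableChange_Δ, WeierstrassCurve.map_Δ, WeierstrassCurve.map_Δ,
    delta4] at h1
  set r : ℚ := ((C.u⁻¹ : ℚˣ) : ℚ) with hr
  have hr0 : r ≠ 0 := Units.ne_zero _
  have h2 : r ^ 12 * 2000 = (W'.Δ : ℚ) := by
    norm_num at h1
    exact h1
  have h3 : (r.num : ℚ) ^ 12 * 2000 = (W'.Δ : ℚ) * (r.den : ℚ) ^ 12 := by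
    have h5 : (r.num : ℚ) = r * r.den := by
      rw [eq_comm, Rat.mul_den_eq_num]
    rw [h5, ← h2]; ring
  have h3' : r.num ^ 12 * 2000 = W'.Δ * (r.den : ℤ) ^ 12 := by exact_mod_cast h3
  have hcop : IsCoprime ((r.den : ℤ) ^ 12) (r.num ^ 12) := by
    apply IsCoprime.pow
    rw [Int.isCoprime_iff_gcd_eq_one, Int.gcd_comm]
    have := r.reduced
    rwa [Int.gcd, Int.natAbs_natCast]
  have hdvd : ((r.den : ℤ) ^ 12) ∣ (2000 : ℤ) := by
    apply hcop.dvd_of_dvd_mul_left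
    rw [h3']
    exact Dvd.intro_left _ rfl
  have hdvd' : r.den ^ 12 ∣ 2000 := by
    have : ((r.den ^ 12 : ℕ) : ℤ) ∣ ((2000 : ℕ) : ℤ) := by
      push_cast
      exact hdvd
    exact Int.natCast_dvd_natCast.1 this
  have hden : r.den = 1 := by
    have hle : r.den ≤ 1 := by
      by_contra hc
      push Not at hc
      have h6 : 2 ^ 12 ≤ r.den ^ 12 := Nat.pow_le_pow_left hc 12
      have h7 := Nat.le_of_dvd (by norm_num) hdvd'
      norm_num at h6
      omega
    have hpos := r.den_pos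
    omega
  rw [hden] at h3'
  have h8 : W'.Δ = r.num ^ 12 * 2000 := by rw [h3']; ring
  rw [h8, abs_mul, abs_pow, delta4]
  have hn : 1 ≤ |r.num| := Int.one_le_abs (Rat.num_ne_zero.2 hr0)
  have : (1 : ℤ) ≤ |r.num| ^ 12 := one_le_pow₀ hn
  norm_num
  linarith

theorem s_num : S_NUM := by
  refine ⟨min4, delta4, ?_, aff7, by norm_num, ?_⟩
  · unfold ap
    rw [aff7]
    norm_num
  · have h1 : 7 ^ ((98911 - 1) / 7) % 98911 = 1 % 98911 := by decide +kernel
    have h2 : ((7 ^ ((98911 - 1) / 7) : ℕ) : ZMod 98911) = ((1 : ℕ) : ZMod 98911) :=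
      (ZMod.natCast_eq_natCast_iff' _ _ _).2 h1
    rw [Nat.cast_pow, Nat.cast_one] at h2
    exact h2

end Pool.Agent.W999.KE
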